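import Pool.Agent.helper65.GF.SpecG

/-!
# MP_ea335c_an, row YHD: the data of an odd close-to-convex function
-/

set_option autoImplicit false

namespace Pool.Agent.GD

open Finset Metric Filter Topology

/-- **Row YHD** -/
theorem YHD (h1 : YVB_stmt) (h2 : YHE_stmt) (h3 : YHP_stmt) : YHD_stmt := by
  intro β κ hβ hκ
  have hpos : ∀ t : ℕ, (0 : ℝ) < 1 / ((t : ℝ) + 1) := fun t => by positivity
  choose N w x hat happ using fun t : ℕ => hβ t (1 / ((t : ℝ) + 1)) (hpos t)
  have hν : ∀ m : ℕ, Tendsto (fun t => mom (w t) (x t) m) atTop (𝓝 (β m)) := by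
    intro m
    rw [tendsto_iff_norm_sub_tendsto_zero]
    refine squeeze_zero' (Eventually.of_forall fun t => norm_nonneg _) ?_
      tendsto_one_div_add_atTop_nhds_zero_nat
    filter_upwards [eventually_ge_atTop m] with t ht
    exact (happ t m ht).le
  have hex : ∀ (s : ℂ) (k : ℕ), Tendsto (fun t => ex s (mom (w t) (x t)) k) atTop (𝓝 (ex s β k)) :=
    fun s k => CTN s β (ex s β) (fun t => mom (w t) (x t)) (fun t => ex s (mom (w t) (x t))) hν
      (ex_rec s β) (fun t => ex_rec s _) k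
  have hcv : ∀ i : ℕ, Tendsto (fun t => cv (ex (-1) (mom (w t) (x t))) κ i) atTop
      (𝓝 (cv (ex (-1) β) κ i)) := by
    intro i
    unfold cv
    exact tendsto_finsetSum _ fun r _ => (hex (-1) (i - r)).mul_const (κ r)
  have hD : Tendsto (fun t => 1 - ‖mom (w t) (x t) 1‖ ^ 2) atTop (𝓝 (1 - ‖β 1‖ ^ 2)) :=
    tendsto_const_nhds.sub ((hν 1).norm.pow 2)
  have hsum : ∀ A r : ℕ, Tendsto (fun t => ∑ i ∈ range r, ex 1 (mom (w t) (x t)) (A - i) *
      cv (ex (-1) (mom (w t) (x t))) κ i) atTop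
      (𝓝 (∑ i ∈ range r, ex 1 β (A - i) * cv (ex (-1) β) κ i)) := by
    intro A r
    exact tendsto_finsetSum _ fun i _ => (hex 1 (A - i)).mul (hcv i)
  have hβ1 : ∀ m, ‖β m‖ ≤ 1 := fun m => h_XCB.1 β m hβ
  exact
    { D0 := by
        have h := hβ1 1
        have h0 := norm_nonneg (β 1)
        nlinarith
      v0 := ex_zero 1 β
      e0 := by
        unfold cv
        rw [Finset.sum_range_one, Nat.sub_self, ex_zero, hκ.1, one_mul]
      e1 := le_of_tendsto_of_tendsto' (hcv 1).norm (tendsto_const_nhds.sub (hD.div_const 2))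
        fun t => (h2 (N t) (w t) (x t) κ (hat t) hκ).2.1
      e2 := fun i => le_of_tendsto' (hcv i).norm fun t =>
        (h2 (N t) (w t) (x t) κ (hat t) hκ).2.2 i
      vb := fun n => h1 β hβ1 n
      p1 := fun A r hA hr => le_of_tendsto_of_tendsto' (hsum (A + r) (r + 1)).norm
        (tendsto_const_nhds.add (tendsto_const_nhds.mul ((tendsto_const_nhds.mul hD).div_const 2)))
        fun t => h3 (N t) (w t) (x t) κ A r (hat t) hκ hA hr }

end Pool.Agent.GD
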